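import Pool.Agent.MBX.Stmts

/-!
# MBX, row DOY: the Dirac operator on wave functions and its derivative in a field coordinate
-/

set_option autoImplicit false

open MeasureTheory Complex

noncomputable section

namespace Pool.Agent.MBX.H32

open Pool.Agent.Helper49_Pauli

lemma dot_contDiff (k : X3) : ContDiff ℝ (⊤ : ℕ∞) (fun x : X3 => dot k x) := by
  unfold dot
  exact ContDiff.sum fun j _ => contDiff_const.mul (contDiff_apply ℝ ℝ j)

variable {cut L : ℝ}

/-- The coefficient of `y i` in the component `j` of `VV`. -/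
def gf (alpha : ℝ) (P : Polarization L) (i : Mode cut L) (j : Fin 3) (x : X3) : ℂ :=
  ((Real.sqrt alpha * (am i * Real.cos (dot (kk i) x - tt i) * P.e i.1 i.2 j) : ℝ) : ℂ)

lemma gf_contDiff (alpha : ℝ) (P : Polarization L) (i : Mode cut L) (j : Fin 3) :
    ContDiff ℝ (⊤ : ℕ∞) (gf alpha P i j) := by
  have h : ContDiff ℝ (⊤ : ℕ∞) fun x : X3 =>
      Real.sqrt alpha * (am i * Real.cos (dot (kk i) x - tt i) * P.e i.1 i.2 j) :=
    contDiff_const.mul ((contDiff_const.mul
      (Real.contDiff_cos.comp ((dot_contDiff (kk i)).sub contDiff_const))).mul contDiff_const)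
  exact Complex.ofRealCLM.contDiff.comp h

lemma VV_eq (alpha : ℝ) (P : Polarization L) (y : Mode cut L → ℝ) (x : X3) (j : Fin 3) :
    ((VV alpha P y x j : ℝ) : ℂ) = ∑ i, ((y i : ℝ) : ℂ) * gf alpha P i j x := by
  unfold VV gf
  rw [Finset.mul_sum, Complex.ofReal_sum]
  refine Finset.sum_congr rfl fun i _ => ?_
  push_cast
  ring

lemma VV_single (alpha : ℝ) (P : Polarization L) (i : Mode cut L) (x : X3) (j : Fin 3) :
    ((VV alpha P (Pi.single i 1) x j : ℝ) : ℂ) = gf alpha P i j x := by
  rw [VV_eq, Finset.sum_eq_single i]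
  · simp
  · intro b _ hb
    simp [Pi.single_eq_of_ne hb]
  · simp

lemma VV_deriv (alpha : ℝ) (P : Polarization L) (y : Mode cut L → ℝ) (x : X3) (j : Fin 3)
    (i : Mode cut L) :
    HasDerivAt (fun t : ℝ => ((VV alpha P (Function.update y i t) x j : ℝ) : ℂ))
      ((VV alpha P (Pi.single i 1) x j : ℝ) : ℂ) (y i) := by
  have e : (fun t : ℝ => ((VV alpha P (Function.update y i t) x j : ℝ) : ℂ)) =
      fun t : ℝ => (t : ℂ) * gf alpha P i j x +
        ∑ b ∈ Finset.univ.erase i, ((y b : ℝ) : ℂ) * gf alpha P b j x := by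
    funext t
    rw [VV_eq, ← Finset.add_sum_erase _ _ (Finset.mem_univ i), Function.update_self]
    refine congrArg _ (Finset.sum_congr rfl fun b hb => ?_)
    rw [Function.update_of_ne (Finset.ne_of_mem_erase hb)]
  rw [e, VV_single]
  have h := ((Complex.ofRealCLM.hasDerivAt (x := y i)).mul_const (gf alpha P i j x)).add_const
    (∑ b ∈ Finset.univ.erase i, ((y b : ℝ) : ℂ) * gf alpha P b j x)
  simpa using h

lemma VV_mem (h1 : SclStmt) (alpha : ℝ) (P : Polarization L)
    {q : (Mode cut L → ℝ) → X3 → ℂ} (hq : q ∈ SS (Mode cut L)) (j : Fin 3) :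
    (fun y x => ((VV alpha P y x j : ℝ) : ℂ) * q y x) ∈ SS (Mode cut L) := by
  have e : (fun (y : Mode cut L → ℝ) (x : X3) => ((VV alpha P y x j : ℝ) : ℂ) * q y x) =
      ∑ i, fun (y : Mode cut L → ℝ) (x : X3) => ((y i : ℝ) : ℂ) * (gf alpha P i j x * q y x) := by
    funext y x
    rw [VV_eq, Finset.sum_mul, Finset.sum_apply, Finset.sum_apply]
    refine Finset.sum_congr rfl fun i _ => ?_
    ring
  rw [e]
  refine Submodule.sum_mem _ fun i _ => ?_
  obtain ⟨-, -, hy, hg⟩ := h1 (Mode cut L)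
  exact hy _ (hg q hq (gf alpha P i j) (gf_contDiff alpha P i j)) i

lemma cov_mem (h1 : SclStmt) (h3 : SdxStmt) (alpha : ℝ) (P : Polarization L)
    {psi : (Mode cut L → ℝ) → X3 → S2} (hpsi : WW psi) (j : Fin 3) :
    WW fun y x => cov (VV alpha P y) j (psi y) x := by
  intro s
  have h := Submodule.add_mem _ (Submodule.smul_mem _ (-I)
    ((h3 (Mode cut L) _ (hpsi s)).2.1 j)) (VV_mem h1 alpha P (hpsi s) j)
  exact h

lemma sg_sum_mem {ι : Type} [Fintype ι] [DecidableEq ι] {w : Fin 3 → (ι → ℝ) → X3 → S2}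
    (hw : ∀ j, WW (w j)) : WW fun y x => ∑ j, sg j (w j y x) := by
  intro s
  have key : ∀ j : Fin 3, (fun y x => sg j (w j y x) s) ∈ SS ι := by
    intro j
    fin_cases j <;> fin_cases s
    · exact hw 0 1
    · exact hw 0 0
    · exact Submodule.smul_mem _ (-I) (hw 1 1)
    · exact Submodule.smul_mem _ I (hw 1 0)
    · exact hw 2 0
    · exact Submodule.neg_mem _ (hw 2 1)
  have e : (fun (y : ι → ℝ) (x : X3) => (∑ j, sg j (w j y x)) s) =
      ∑ j, fun (y : ι → ℝ) (x : X3) => sg j (w j y x) s := by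
    funext y x
    simp only [Finset.sum_apply]
  rw [e]
  exact Submodule.sum_mem _ fun j _ => key j

lemma cov_deriv (h2 : SdyStmt) (h3 : SdxStmt) (alpha : ℝ) (P : Polarization L)
    {psi : (Mode cut L → ℝ) → X3 → S2} (hpsi : WW psi) (j : Fin 3) (i : Mode cut L)
    (y : Mode cut L → ℝ) (x : X3) :
    HasDerivAt (fun t : ℝ => cov (VV alpha P (Function.update y i t)) j
        (psi (Function.update y i t)) x)
      (cov (VV alpha P y) j (dY2 i psi y) x +
        ((VV alpha P (Pi.single i 1) x j : ℝ) : ℂ) • psi y x) (y i) := by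
  rw [hasDerivAt_pi]
  intro s
  have hq := hpsi s
  have hd := h2 (Mode cut L) _ hq i
  have hX := (h3 (Mode cut L) _ hq).2.1 j
  have hXd := (h2 (Mode cut L) _ hX i).2 y x
  have hcomm := (h3 (Mode cut L) _ hq).2.2 i j
  rw [hcomm] at hXd
  have hV := (VV_deriv alpha P y x j i).mul (hd.2 y x)
  have h := (hXd.const_mul (-I)).add hV
  have e : -I * dX j (dY i fun y x => psi y x s) y x +
      (((VV alpha P (Pi.single i 1) x j : ℝ) : ℂ) * psi (Function.update y i (y i)) x s +
        ((VV alpha P (Function.update y i (y i)) x j : ℝ) : ℂ) *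
          dY i (fun y x => psi y x s) y x) =
      (cov (VV alpha P y) j (dY2 i psi y) x +
        ((VV alpha P (Pi.single i 1) x j : ℝ) : ℂ) • psi y x) s := by
    rw [Function.update_eq_self, Pi.add_apply, Pi.smul_apply, smul_eq_mul]
    show _ = (-I * dX j (dY i fun y x => psi y x s) y x +
      ((VV alpha P y x j : ℝ) : ℂ) * dY i (fun y x => psi y x s) y x) + _
    ring
  rw [← e]
  exact h

theorem doy (h1 : SclStmt) (h2 : SdyStmt) (h3 : SdxStmt) : DoyStmt := by
  intro cut L alpha P psi hpsi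
  have hcov := fun j => cov_mem h1 h3 alpha P hpsi j
  have hW : WW (DD alpha P psi) := sg_sum_mem hcov
  refine ⟨hW, hcov, fun i s => (h2 (Mode cut L) _ (hpsi s) i).1, ?_⟩
  intro i y x
  have hj : ∀ j : Fin 3, HasDerivAt (fun t : ℝ => sg j (cov (VV alpha P (Function.update y i t)) j
        (psi (Function.update y i t)) x))
      (sg j (cov (VV alpha P y) j (dY2 i psi y) x +
        ((VV alpha P (Pi.single i 1) x j : ℝ) : ℂ) • psi y x)) (y i) := by
    intro j
    have hc := cov_deriv h2 h3 alpha P hpsi j i y x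
    have hl := ((LinearMap.toContinuousLinearMap (sg j)).restrictScalars ℝ).hasFDerivAt
      (x := cov (VV alpha P (Function.update y i (y i))) j (psi (Function.update y i (y i))) x)
    exact hl.comp_hasDerivAt (y i) hc
  have hs := HasDerivAt.fun_sum (u := Finset.univ) fun j _ => hj j
  have hsum : ∑ j, sg j (cov (VV alpha P y) j (dY2 i psi y) x +
        ((VV alpha P (Pi.single i 1) x j : ℝ) : ℂ) • psi y x) =
      DD alpha P (dY2 i psi) y x + sl (VV alpha P (Pi.single i 1) x) (psi y x) := by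
    rw [sl_apply]
    show _ = (∑ j, sg j (cov (VV alpha P y) j (dY2 i psi y) x)) + _
    rw [← Finset.sum_add_distrib]
    refine Finset.sum_congr rfl fun j _ => ?_
    rw [map_add, map_smul]
  rw [hsum, hasDerivAt_pi] at hs
  funext s
  exact (hs s).deriv

end Pool.Agent.MBX.H32
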