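import Pool.Agent.MBX.Stmts

/-!
# MBX, row RP2: a state is a finite sum of smooth functions times fixed vectors
-/

set_option autoImplicit false

open MeasureTheory Complex

namespace Pool.Agent.MBX.H32

open Pool.Agent.Helper49_Pauli

theorem rp2 : Rp2Stmt := by
  intro D _ _ psi hpsi
  obtain ⟨hsm, hcs, W, hW, hmem⟩ := hpsi
  have := hW
  let B := stdOrthonormalBasis ℂ W
  refine ⟨Module.finrank ℂ W, fun k => (B k : D), fun k s x => inner ℂ (B k : D) (psi x s), ?_, ?_⟩
  · intro k s
    refine ⟨contDiff_const.inner ℂ (hsm s), ?_⟩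
    exact (hcs s).comp_left (g := fun v : D => inner ℂ (B k : D) v) (inner_zero_right _)
  · intro x s
    have h := B.sum_repr' ⟨psi x s, hmem x s⟩
    have h2 := congrArg (fun w : W => (w : D)) h
    simp only [Submodule.coe_sum, Submodule.coe_smul, Submodule.coe_inner] at h2
    exact h2.symm

end Pool.Agent.MBX.H32
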